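import Pool.Agent.Q148.CircleTop

set_option autoImplicit false

/-!
Large faces in simple arrangements of great circles.
-/

namespace Pool.Agent.Results.MP_2b14c6_co.LargestFaceFive

open Q148.GC

/-- For every `n ≥ 5` the largest integer `k` such that every simple arrangement of `n` great
circles has a face with at least `k` sides is `k(n) = 5`. -/
theorem result (n : ℕ) (hn : 5 ≤ n) :
    IsGreatest {k : ℕ | ∀ C : Fin n → Set (EuclideanSpace ℝ (Fin 3)),
      IsSimpleArrangement C → ∃ F, IsFace C F ∧ (k : ℕ∞) ≤ (sides C F).encard} 5 := by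
  constructor
  · intro C hC
    exact lower n hn C hC
  · intro k hk
    obtain ⟨C, hC, h5⟩ := upper n (by omega)
    obtain ⟨F, hF, hkF⟩ := hk C hC
    exact_mod_cast hkF.trans (h5 F hF)

end Pool.Agent.Results.MP_2b14c6_co.LargestFaceFive
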